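import Mathlib

/-!
# Linear algebras, and classes of arithmetic schemes closed under the operations of Morin
-/

set_option autoImplicit false

namespace Pool.Agent.Helper45.LF

/-- **Linear algebras** over a field `K`: the smallest class of `K`-algebras of finite type which
contains `0` and `K` and is closed under isomorphisms, polynomial rings and two-out-of-three
for `R/f`, `R` and `R_f`. -/
inductive Linear (K : Type) [Field K] : ∀ (R : Type) [CommRing R] [Algebra K R], Prop
  | zero (R : Type) [CommRing R] [Algebra K R] : Subsingleton R → Linear K R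
  | base : Linear K K
  | iso (R S : Type) [CommRing R] [Algebra K R] [CommRing S] [Algebra K S] :
      (R ≃ₐ[K] S) → Linear K R → Linear K S
  | poly (R : Type) [CommRing R] [Algebra K R] : Linear K R → Linear K (Polynomial R)
  | glue (R : Type) [CommRing R] [Algebra K R] (f : R) : Algebra.FiniteType K R →
      Linear K (R ⧸ Ideal.span {f}) → Linear K (Localization.Away f) → Linear K R
  | closed (R : Type) [CommRing R] [Algebra K R] (f : R) :
      Linear K R → Linear K (Localization.Away f) → Linear K (R ⧸ Ideal.span {f})
  | opn (R : Type) [CommRing R] [Algebra K R] (f : R) :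
      Linear K R → Linear K (R ⧸ Ideal.span {f}) → Linear K (Localization.Away f)

open AlgebraicGeometry CategoryTheory Limits NumberField

/-- *Arithmetic schemes*: separated and of finite type over `Spec ℤ`. -/
def Arithmetic (X : Scheme.{0}) : Prop :=
  ∃ f : X ⟶ Spec (CommRingCat.of ℤ), LocallyOfFiniteType f ∧ QuasiCompact f ∧ IsSeparated f

/-- `Z` is a closed subscheme of `X` (via `i`) and `U` (via `j`) is its open complement. -/
structure ClosedOpen {Z X U : Scheme.{0}} (i : Z ⟶ X) (j : U ⟶ X) : Prop where
  closed : IsClosedImmersion i
  isOpen : IsOpenImmersion j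
  compl : Set.range j = (Set.range i)ᶜ

/-- The `(n + 1)`-fold fibre product `Y ×_X ... ×_X Y` with its structure map to `X`. -/
noncomputable def fibrePower {Y X : Scheme.{0}} (f : Y ⟶ X) : ℕ → Over X
  | 0 => Over.mk f
  | n + 1 => Over.mk (pullback.fst (fibrePower f n).hom f ≫ (fibrePower f n).hom)

/-- The class `P` contains the empty scheme, the spectra of the rings of integers of number fields
and of the finite fields, and it is closed under isomorphisms, two-out-of-three for a closed
subscheme and its complement, the affine line over affine schemes, and descent along finite etale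
surjective maps all of whose fibre powers belong to `P`. -/
structure MorinClosed (P : Scheme.{0} → Prop) : Prop where
  iso : ∀ X Y : Scheme.{0}, Arithmetic X → Nonempty (X ≅ Y) → P X → P Y
  empty : ∀ X : Scheme.{0}, IsEmpty X → P X
  closed : ∀ (Z X U : Scheme.{0}) (i : Z ⟶ X) (j : U ⟶ X), Arithmetic X → ClosedOpen i j →
    P X → P U → P Z
  opn : ∀ (Z X U : Scheme.{0}) (i : Z ⟶ X) (j : U ⟶ X), Arithmetic X → ClosedOpen i j →
    P X → P Z → P U
  glue : ∀ (Z X U : Scheme.{0}) (i : Z ⟶ X) (j : U ⟶ X), Arithmetic X → ClosedOpen i j →
    P Z → P U → P X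
  line : ∀ (R : Type) [CommRing R], Arithmetic (Spec (CommRingCat.of R)) →
    P (Spec (CommRingCat.of R)) → P (Spec (CommRingCat.of (Polynomial R)))
  etale : ∀ (Y X : Scheme.{0}) (f : Y ⟶ X), Arithmetic X → IsFinite f → Etale f → Surjective f →
    (∀ n : ℕ, P (fibrePower f n).left) → P X
  numberRing : ∀ (F : Type) [Field F] [NumberField F], P (Spec (CommRingCat.of (𝓞 F)))
  finiteField : ∀ (k : Type) [Field k] [Finite k], P (Spec (CommRingCat.of k))

end Pool.Agent.Helper45.LF
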