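import Pool.Agent.Helper45.LF.RingMain

/-!
# Monogenic finite etale Galois coverings
-/

set_option autoImplicit false

namespace Pool.Agent.Helper45.LF

open Polynomial

variable {Q : ∀ (R : Type) [CommRing R], Prop}

/-- the quotient by the product of linear factors -/
theorem RingClosed.quot_split (hQ : RingClosed Q) {T : Type} [CommRing T]
    (hT : Algebra.FiniteType ℤ T) (h : Q T) (s : Multiset T)
    (hs : ∀ a t, s = a ::ₘ t → IsUnit (t.map (fun b => a - b)).prod) :
    Q (T[X] ⧸ Ideal.span {(s.map (fun a => X - C a)).prod}) := by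
  induction s using Multiset.induction_on with
  | empty =>
    apply hQ.zero
    rw [Ideal.Quotient.subsingleton_iff, Multiset.map_zero, Multiset.prod_zero,
      Ideal.span_singleton_one]
  | cons a t ih =>
    have ht : ∀ b t', t = b ::ₘ t' → IsUnit (t'.map (fun c => b - c)).prod := by
      intro b t' hbt
      have h1 := hs b (a ::ₘ t') (by rw [hbt, Multiset.cons_swap])
      rw [Multiset.map_cons, Multiset.prod_cons] at h1
      exact isUnit_of_mul_isUnit_right h1
    have h2 := ih ht
    have hcop : IsCoprime (Ideal.span {X - C a}) (Ideal.span {(t.map (fun a => X - C a)).prod}) := by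
      rw [Ideal.isCoprime_span_singleton_iff]
      set p : T[X] := (t.map (fun a => X - C a)).prod with hp
      have h3 : IsUnit (p.eval a) := by
        have h4 : p.eval a = (t.map (fun b => a - b)).prod := by
          rw [hp, eval_multiset_prod, Multiset.map_map]
          congr 1
          apply Multiset.map_congr rfl
          intro b _
          simp
        rw [h4]
        exact hs a t rfl
      obtain ⟨u, hu⟩ := h3.exists_left_inv
      obtain ⟨q, hq⟩ := X_sub_C_dvd_sub_C_eval (a := a) (p := p)
      refine ⟨- (C u * q), C u, ?_⟩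
      have h5 : p = (X - C a) * q + C (p.eval a) := by rw [← hq]; ring
      have h6 : C u * C (p.eval a) = 1 := by rw [← C_mul, hu, C_1]
      calc -(C u * q) * (X - C a) + C u * p
          = -(C u * q) * (X - C a) + C u * ((X - C a) * q + C (p.eval a)) := by rw [← h5]
        _ = C u * C (p.eval a) := by ring
        _ = 1 := h6
    have e := Ideal.quotientMulEquivQuotientProd _ _ hcop
    rw [Ideal.span_singleton_mul_span_singleton] at e
    rw [Multiset.map_cons, Multiset.prod_cons]
    have hTX := finiteType_poly hT
    have hf1 := finiteType_quot hTX (Ideal.span {X - C a})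
    have hf2 := finiteType_quot hTX (Ideal.span {(t.map (fun a => X - C a)).prod})
    have hf3 : Algebra.FiniteType ℤ ((T[X] ⧸ Ideal.span {X - C a}) ×
      (T[X] ⧸ Ideal.span {(t.map (fun a => X - C a)).prod})) := inferInstance
    refine hQ.iso _ _ hf3 e.symm (hQ.prod _ _ hf1 hf2 ?_ h2)
    exact hQ.iso _ _ hT (quotientSpanXSubCAlgEquiv a).symm.toRingEquiv h

section

variable {R : Type} [CommRing R] {g : R[X]}

/-- the multiset of the roots satisfies the condition of `quot_split` over every extension -/
theorem unit_of_root (hu : IsUnit (aeval (AdjoinRoot.root g) (derivative g)))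
    {s : Multiset (AdjoinRoot g)} (hs : g.map (AdjoinRoot.of g) = (s.map fun a => X - C a).prod)
    {T : Type} [CommRing T] (j : AdjoinRoot g →+* T) (a : T) (t : Multiset T)
    (h : s.map j = a ::ₘ t) : IsUnit (t.map (fun b => a - b)).prod := by
  classical
  have hmem : a ∈ s.map j := by rw [h]; exact Multiset.mem_cons_self a t
  obtain ⟨b, hb, rfl⟩ := Multiset.mem_map.1 hmem
  obtain ⟨s', rfl⟩ := Multiset.exists_cons_of_mem hb
  rw [Multiset.map_cons] at h
  have h1 : s'.map j = t := (Multiset.cons_inj_right _).1 h
  rw [← h1, Multiset.map_map]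
  have h2 : (s'.map ((fun c => j b - c) ∘ j)).prod = j ((s'.map (fun c => b - c)).prod) := by
    rw [map_multiset_prod, Multiset.map_map]
    congr 1
    apply Multiset.map_congr rfl
    intro c _
    simp
  rw [h2]
  apply IsUnit.map
  rw [Multiset.map_cons, Multiset.prod_cons] at hs
  -- the endomorphism which sends the root to `b`
  have hb0 : eval₂ (AdjoinRoot.of g) b g = 0 := by
    rw [← eval_map, hs, eval_mul]
    simp
  let φ : AdjoinRoot g →+* AdjoinRoot g := AdjoinRoot.lift (AdjoinRoot.of g) b hb0
  have h3 := hu.map φ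
  have h4 : φ (aeval (AdjoinRoot.root g) (derivative g)) =
      eval b (derivative (g.map (AdjoinRoot.of g))) := by
    rw [aeval_def, hom_eval₂, derivative_map, eval_map]
    congr 1
    · ext c
      exact AdjoinRoot.lift_of hb0
    · exact AdjoinRoot.lift_root hb0
  rw [h4, hs, derivative_mul, eval_add, eval_mul, eval_mul] at h3
  simp only [derivative_sub, derivative_X, derivative_C, sub_zero, eval_one, one_mul, eval_sub,
    eval_X, eval_C, sub_self, zero_mul, add_zero] at h3
  rw [eval_multiset_prod, Multiset.map_map] at h3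
  have h5 : (s'.map (fun c => b - c)) = s'.map (eval b ∘ fun a => X - C a) := by
    apply Multiset.map_congr rfl
    intro c _
    simp
  rw [h5]
  exact h3

theorem etale_adjoinRoot (hg : g.Monic)
    (hu : IsUnit (aeval (AdjoinRoot.root g) (derivative g))) :
    Algebra.Etale R (AdjoinRoot g) := by
  obtain ⟨v, hv⟩ := hu.exists_right_inv
  obtain ⟨p, rfl⟩ := AdjoinRoot.mk_surjective v
  have h1 : ∃ q, derivative g * p - 1 = g * q := by
    rw [AdjoinRoot.aeval_eq, ← map_mul, ← map_one (AdjoinRoot.mk g), ← sub_eq_zero, ← map_sub,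
      AdjoinRoot.mk_eq_zero] at hv
    exact hv
  obtain ⟨q, hq⟩ := h1
  let P : StandardEtalePair R :=
    { f := g, monic_f := hg, g := 1, cond := ⟨p, -q, 0, by rw [pow_zero]; linear_combination hq⟩ }
  have h2 : Algebra.Etale R P.Ring := inferInstance
  have h3 : Algebra.Etale R (Localization.Away (AdjoinRoot.mk g (1 : R[X]))) :=
    Algebra.Etale.of_equiv P.equivAwayAdjoinRoot
  have e : AdjoinRoot g ≃ₐ[AdjoinRoot g] Localization.Away (AdjoinRoot.mk g (1 : R[X])) :=
    IsLocalization.atUnit _ _ (AdjoinRoot.mk g (1 : R[X])) (by rw [map_one]; exact isUnit_one)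
  have e' : AdjoinRoot g ≃ₐ[R] Localization.Away (AdjoinRoot.mk g (1 : R[X])) :=
    e.restrictScalars R
  exact Algebra.Etale.of_equiv e'.symm

theorem of_injective (hg : g.Monic) (hdeg : 0 < g.natDegree) :
    Function.Injective (AdjoinRoot.of g) := by
  rw [injective_iff_map_eq_zero]
  intro r hr
  rw [← AdjoinRoot.mk_C, AdjoinRoot.mk_eq_zero] at hr
  by_contra hne
  have : Nontrivial R := ⟨r, 0, hne⟩
  have h1 : (C r : R[X]) ≠ 0 := by simpa using hne
  have h2 := hg.not_dvd_of_natDegree_lt h1 (by simpa using hdeg)
  exact h2 hr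

end

end Pool.Agent.Helper45.LF
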