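import Pool.Agent.Helper45.LF.Good

/-!
# Finite rings and the algebraic closure of a finite field
-/

set_option autoImplicit false

namespace Pool.Agent.Helper45.LF

variable {Q : ∀ (R : Type) [CommRing R], Prop}

/-- finite rings -/
theorem MorinRings.finite (hQ : MorinRings Q) : ∀ (n : ℕ) (R : Type) [CommRing R], Finite R →
    Nat.card R = n → Q R := by
  intro n
  induction n using Nat.strong_induction_on with
  | _ n ih =>
    intro R _ hfin hcard
    rcases subsingleton_or_nontrivial R with h0 | h0
    · exact hQ.zero R h0
    by_cases hf : ∀ f : R, f ≠ 0 → IsUnit f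
    · let _ : Field R := IsField.toField
        { exists_pair_ne := ⟨0, 1, zero_ne_one⟩
          mul_comm := mul_comm
          mul_inv_cancel := fun {a} ha => by
            obtain ⟨u, rfl⟩ := hf a ha
            exact ⟨(u⁻¹ : Rˣ), by simp⟩ }
      exact hQ.finiteField R hfin
    · push Not at hf
      obtain ⟨f, hf0, hfu⟩ := hf
      have hft : Algebra.FiniteType ℤ R := by
        have : Module.Finite ℤ R := Module.Finite.of_finite
        infer_instance
      have h1 : Nat.card (R ⧸ Ideal.span {f}) < n := by
        rw [← hcard]
        have hs : Function.Surjective (Ideal.Quotient.mk (Ideal.span {f})) :=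
          Ideal.Quotient.mk_surjective
        have h2 : Nat.card (R ⧸ Ideal.span {f}) ≤ Nat.card R := Nat.card_le_card_of_surjective _ hs
        refine lt_of_le_of_ne h2 fun heq => ?_
        have hb : Function.Bijective (Ideal.Quotient.mk (Ideal.span {f})) := by
          have : Finite (R ⧸ Ideal.span {f}) := Finite.of_surjective _ hs
          exact (Nat.bijective_iff_surjective_and_card _).2 ⟨hs, heq.symm⟩
        apply hf0
        apply hb.1
        rw [map_zero, Ideal.Quotient.eq_zero_iff_mem]
        exact Ideal.subset_span rfl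
      have hs : Function.Surjective (algebraMap R (Localization.Away f)) := by
        have : IsArtinianRing R := inferInstance
        exact IsArtinianRing.localization_surjective (Submonoid.powers f) (Localization.Away f)
      have hfin' : Finite (Localization.Away f) := Finite.of_surjective _ hs
      have h2 : Nat.card (Localization.Away f) < n := by
        rw [← hcard]
        have h2 : Nat.card (Localization.Away f) ≤ Nat.card R :=
          Nat.card_le_card_of_surjective _ hs
        refine lt_of_le_of_ne h2 fun heq => ?_
        have hb : Function.Bijective (algebraMap R (Localization.Away f)) :=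
          (Nat.bijective_iff_surjective_and_card _).2 ⟨hs, heq.symm⟩
        apply hfu
        have h3 : IsUnit (algebraMap R (Localization.Away f) f) :=
          IsLocalization.Away.algebraMap_isUnit f
        obtain ⟨y, hy⟩ := h3.exists_right_inv
        obtain ⟨z, rfl⟩ := hs y
        rw [← map_mul, ← map_one (algebraMap R (Localization.Away f))] at hy
        exact IsUnit.of_mul_eq_one _ (hb.1 hy)
      have hfin'' : Finite (R ⧸ Ideal.span {f}) :=
        Finite.of_surjective _ (Ideal.Quotient.mk_surjective (I := Ideal.span {f}))
      exact hQ.glue R f hft (ih _ h1 _ hfin'' rfl) (ih _ h2 _ hfin' rfl)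

theorem aeval_mem_adjoin {C K : Type} [CommRing C] [CommRing K] [Algebra C K] (θ : K)
    (q : Polynomial C) : Polynomial.aeval θ q ∈ Algebra.adjoin C {θ} := by
  rw [Algebra.adjoin_singleton_eq_range_aeval]
  exact ⟨q, rfl⟩

theorem mem_of_root {k K : Type} [Field k] [Field K] [Algebra k K] {L : IntermediateField k K}
    (hn : Normal k L) {θ : K} (hθ : IsIntegral k θ) (hθL : θ ∈ L) {a : K}
    (ha : Polynomial.aeval a (minpoly k θ) = 0) : a ∈ L := by
  have h1 : minpoly k (⟨θ, hθL⟩ : L) = minpoly k θ :=
    (minpoly.algebraMap_eq (algebraMap L K).injective (⟨θ, hθL⟩ : L)).symm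
  have h2 := hn.splits ⟨θ, hθL⟩
  rw [h1] at h2
  have h3 : ((minpoly k θ).map (algebraMap k L)) ≠ 0 :=
    Polynomial.map_ne_zero (minpoly.ne_zero hθ)
  have h4 := h2.mem_range_of_isRoot (i := algebraMap L K) h3 (x := a) (by
    rw [Polynomial.map_map, Polynomial.IsRoot, Polynomial.eval_map]
    exact ha)
  obtain ⟨b, rfl⟩ := h4
  exact b.2

/-- every finite subset of the algebraic closure of `F_p` lies in a good subring -/
theorem exists_good_finite (hQ : MorinRings Q) (p : ℕ) [Fact p.Prime] {K : Type} [Field K]
    [Algebra (ZMod p) K] [IsAlgClosed K] [Algebra.IsAlgebraic (ZMod p) K] (T : Finset K) :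
    ∃ B : Subring K, GoodSub Q (fun C _ => Nonempty (C ≃+* ZMod p)) B ∧ ∀ x ∈ T, x ∈ B := by
  classical
  let L : IntermediateField (ZMod p) K := IntermediateField.adjoin (ZMod p) (T : Set K)
  have hL : FiniteDimensional (ZMod p) L :=
    IntermediateField.finiteDimensional_adjoin fun x _ => Algebra.IsIntegral.isIntegral x
  have hLf : Finite L := Module.finite_of_finite (ZMod p)
  obtain ⟨α, hα⟩ := Field.exists_primitive_element (ZMod p) L
  let θ : K := α
  have hθ : IsIntegral (ZMod p) θ := Algebra.IsIntegral.isIntegral θ
  have hLθ : Algebra.adjoin (ZMod p) {θ} = L.toSubalgebra := by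
    have h1 : IntermediateField.adjoin (ZMod p) {θ} = L := by
      have h2 := congrArg (IntermediateField.map L.val) hα
      rw [IntermediateField.adjoin_map] at h2
      simp only [IntermediateField.coe_val, Set.image_singleton] at h2
      rw [h2]
      ext x
      simp
    rw [← h1, IntermediateField.adjoin_simple_toSubalgebra_of_isAlgebraic hθ.isAlgebraic]
  have hmem : ∀ x : K, x ∈ Algebra.adjoin (ZMod p) {θ} ↔ x ∈ L := by
    intro x
    rw [hLθ]
    rfl
  have hsep : (minpoly (ZMod p) θ).Separable := Algebra.IsSeparable.isSeparable (ZMod p) θ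
  have hd : Polynomial.aeval θ (Polynomial.derivative (minpoly (ZMod p) θ)) ≠ 0 :=
    hsep.aeval_derivative_ne_zero (minpoly.aeval _ _)
  refine ⟨(Algebra.adjoin (ZMod p) {θ}).toSubring, goodSub_of_minpoly ⟨RingEquiv.refl _⟩ ?_ hθ ?_ hd
    ?_ ?_, ?_⟩
  · have : Module.Finite ℤ (ZMod p) := Module.Finite.of_finite
    infer_instance
  · intro a ha
    rw [hmem]
    have hn : Normal (ZMod p) L := inferInstance
    exact mem_of_root hn hθ ((hmem θ).1 (Algebra.self_mem_adjoin_singleton _ _)) ha
  · rw [hmem]
    apply L.inv_mem
    rw [← hmem]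
    exact aeval_mem_adjoin _ _
  · apply hQ.finite _ _ _ rfl
    rw [hLθ]
    exact hLf
  · intro x hx
    change x ∈ Algebra.adjoin (ZMod p) {θ}
    rw [hmem]
    exact IntermediateField.subset_adjoin _ _ hx

end Pool.Agent.Helper45.LF
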