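import Pool.Agent.Helper45.LF.Spread

/-!
# Descent along finite etale Galois extensions of the constants
-/

set_option autoImplicit false

namespace Pool.Agent.Helper45.LF

open Filter

/-- A class of finitely generated rings which is closed under the affine operations and under
monogenic finite etale Galois descent, and contains the number rings and the finite fields. -/
structure MorinRings (Q : ∀ (R : Type) [CommRing R], Prop) : Prop extends RingClosed Q where
  gal : ∀ (R : Type) [CommRing R] (g : Polynomial R), Algebra.FiniteType ℤ R → g.Monic →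
    0 < g.natDegree → IsUnit (Polynomial.aeval (AdjoinRoot.root g) (Polynomial.derivative g)) →
    (∃ s : Multiset (AdjoinRoot g), g.map (AdjoinRoot.of g) =
      (s.map fun a => Polynomial.X - Polynomial.C a).prod) → Q (AdjoinRoot g) → Q R
  numberRing : ∀ (F : Type) [Field F] [NumberField F], Q (NumberField.RingOfIntegers F)
  finiteField : ∀ (k : Type) [Field k], Finite k → Q k

section Rep

open MvPolynomial

variable {C R σ ρ : Type} [CommRing C] [CommRing R] [Algebra C R] {x : σ → R}
    {f : ρ → MvPolynomial σ C}

/-- base change of a presentation along `C → C[T]/(g)` -/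
theorem Rep.adjoinRoot (hx : Rep x f) (g : Polynomial C) (i : AdjoinRoot g →+*
    AdjoinRoot (g.map (algebraMap C R)))
    (hi : ∀ c, i (AdjoinRoot.of g c) = AdjoinRoot.of _ (algebraMap C R c))
    (hi' : i (AdjoinRoot.root g) = AdjoinRoot.root _) :
    @Rep (AdjoinRoot g) (AdjoinRoot (g.map (algebraMap C R))) _ _ i.toAlgebra σ ρ
      (fun j => AdjoinRoot.of _ (x j)) (fun k => map (AdjoinRoot.of g) (f k)) := by
  let _ : Algebra (AdjoinRoot g) (AdjoinRoot (g.map (algebraMap C R))) := i.toAlgebra
  have hal : ∀ b, algebraMap (AdjoinRoot g) (AdjoinRoot (g.map (algebraMap C R))) b = i b :=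
    fun b => rfl
  constructor
  · intro k
    have h1 : aeval (fun j => AdjoinRoot.of (g.map (algebraMap C R)) (x j))
        (map (AdjoinRoot.of g) (f k)) =
        AdjoinRoot.of (g.map (algebraMap C R)) (aeval x (f k)) := by
      rw [aeval_def, eval₂_map, aeval_def, eval₂_comp_left]
      congr 1
      ext c
      simp only [RingHom.comp_apply, hal, hi]
    rw [h1, hx.zero, map_zero]
  · intro E _ _ y hy
    let _ : Algebra C E := ((algebraMap (AdjoinRoot g) E).comp (AdjoinRoot.of g)).toAlgebra
    obtain ⟨φ, hφ⟩ := hx.lift E y (fun k => by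
      have := hy k
      rw [aeval_def, eval₂_map] at this
      rw [aeval_def]
      exact this)
    have hroot : Polynomial.eval₂ φ.toRingHom (algebraMap (AdjoinRoot g) E (AdjoinRoot.root g))
        (g.map (algebraMap C R)) = 0 := by
      rw [Polynomial.eval₂_map]
      have : (φ.toRingHom.comp (algebraMap C R)) =
          (algebraMap (AdjoinRoot g) E).comp (AdjoinRoot.of g) := by
        ext c
        exact φ.commutes c
      rw [this, ← Polynomial.hom_eval₂]
      have h0 : Polynomial.eval₂ (AdjoinRoot.of g) (AdjoinRoot.root g) g = 0 :=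
        AdjoinRoot.eval₂_root g
      rw [h0, map_zero]
    let Φ : AdjoinRoot (g.map (algebraMap C R)) →+* E := AdjoinRoot.lift φ.toRingHom _ hroot
    have hΦ : ∀ b, Φ (i b) = algebraMap (AdjoinRoot g) E b := by
      have : Φ.comp i = algebraMap (AdjoinRoot g) E := by
        apply AdjoinRoot.ringHom_ext
        · ext c
          simp only [RingHom.comp_apply, hi]
          change Φ (AdjoinRoot.of _ (algebraMap C R c)) = _
          rw [AdjoinRoot.lift_of]
          exact φ.commutes c
        · simp only [RingHom.comp_apply, hi']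
          exact AdjoinRoot.lift_root _
      intro b
      exact congrArg (fun χ : AdjoinRoot g →+* E => χ b) this
    refine ⟨⟨Φ, hΦ⟩, fun j => ?_⟩
    change Φ (AdjoinRoot.of _ (x j)) = y j
    rw [AdjoinRoot.lift_of]
    exact hφ j
  · intro E _ _ φ ψ h
    let _ : Algebra C E := ((algebraMap (AdjoinRoot g) E).comp (AdjoinRoot.of g)).toAlgebra
    have hφ : ∀ c, φ (AdjoinRoot.of _ (algebraMap C R c)) = algebraMap C E c := by
      intro c
      rw [← hi, ← hal, φ.commutes]
      rfl
    have hψ : ∀ c, ψ (AdjoinRoot.of _ (algebraMap C R c)) = algebraMap C E c := by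
      intro c
      rw [← hi, ← hal, ψ.commutes]
      rfl
    let φ' : R →ₐ[C] E := { toRingHom := (φ : AdjoinRoot (g.map (algebraMap C R)) →+* E).comp
                              (AdjoinRoot.of (g.map (algebraMap C R))), commutes' := hφ }
    let ψ' : R →ₐ[C] E := { toRingHom := (ψ : AdjoinRoot (g.map (algebraMap C R)) →+* E).comp
                              (AdjoinRoot.of (g.map (algebraMap C R))), commutes' := hψ }
    have h1 : φ' = ψ' := hx.ext E φ' ψ' h
    have h2 : (φ : AdjoinRoot (g.map (algebraMap C R)) →+* E) = ψ := by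
      apply AdjoinRoot.ringHom_ext
      · exact congrArg AlgHom.toRingHom h1
      · change φ (AdjoinRoot.root _) = ψ (AdjoinRoot.root _)
        rw [← hi', ← hal, φ.commutes, ψ.commutes]
    ext b
    exact congrArg (fun χ : AdjoinRoot (g.map (algebraMap C R)) →+* E => χ b) h2

/-- the standard algebras over isomorphic rings -/
theorem std_equiv {C D : Type} [CommRing C] [CommRing D] (e : C ≃+* D)
    (f : ρ → MvPolynomial σ C) :
    Nonempty (Std f ≃+* Std (fun k => map (e : C →+* D) (f k))) := by
  refine ⟨Ideal.quotientEquiv _ _ (MvPolynomial.mapEquiv σ e) ?_⟩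
  rw [Ideal.map_span]
  congr 1
  ext q
  simp only [Set.mem_range, Set.mem_image]
  constructor
  · rintro ⟨k, rfl⟩
    exact ⟨f k, ⟨k, rfl⟩, rfl⟩
  · rintro ⟨_, ⟨k, rfl⟩, rfl⟩
    exact ⟨k, rfl⟩

end Rep

variable {Q : ∀ (R : Type) [CommRing R], Prop}

/-- **Descent.** -/
theorem descent (hQ : MorinRings Q) {C : Type} [CommRing C] (hC : Algebra.FiniteType ℤ C)
    {g : Polynomial C} (hg : g.Monic) (hdeg : 0 < g.natDegree)
    (hu : IsUnit (Polynomial.aeval (AdjoinRoot.root g) (Polynomial.derivative g)))
    (hs : ∃ s : Multiset (AdjoinRoot g), g.map (AdjoinRoot.of g) =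
      (s.map fun a => Polynomial.X - Polynomial.C a).prod)
    {B : Type} [CommRing B] (e : AdjoinRoot g ≃+* B) {R : Type} [CommRing R] [Algebra C R]
    {σ ρ : Type} [Finite σ] {x : σ → R} {f : ρ → MvPolynomial σ C} (hx : Rep x f)
    (h : Q (Std (fun k => MvPolynomial.map ((e : AdjoinRoot g →+* B).comp (AdjoinRoot.of g))
      (f k)))) : Q R := by
  have hR : Algebra.FiniteType ℤ R := by
    have h1 := finiteType_std (σ := σ) hC f
    obtain ⟨e, -⟩ := (rep_std f).equiv hx
    exact finiteType_of_surj h1 (e : Std f →+* R) e.surjective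
  rcases subsingleton_or_nontrivial R with hR0 | hR0
  · exact hQ.zero R hR0
  let i : AdjoinRoot g →+* AdjoinRoot (g.map (algebraMap C R)) :=
    AdjoinRoot.lift ((AdjoinRoot.of _).comp (algebraMap C R)) (AdjoinRoot.root _) (by
      rw [← Polynomial.eval₂_map]
      exact AdjoinRoot.eval₂_root _)
  have hi : ∀ c, i (AdjoinRoot.of g c) = AdjoinRoot.of _ (algebraMap C R c) := fun c =>
    AdjoinRoot.lift_of _
  have hi' : i (AdjoinRoot.root g) = AdjoinRoot.root _ := AdjoinRoot.lift_root _
  refine hQ.gal R (g.map (algebraMap C R)) hR (hg.map _) ?_ ?_ ?_ ?_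
  · rw [hg.natDegree_map]
    exact hdeg
  · have h1 := hu.map i
    have h2 : i (Polynomial.aeval (AdjoinRoot.root g) (Polynomial.derivative g)) =
        Polynomial.aeval (AdjoinRoot.root (g.map (algebraMap C R)))
          (Polynomial.derivative (g.map (algebraMap C R))) := by
      rw [Polynomial.aeval_def, Polynomial.hom_eval₂, hi', Polynomial.aeval_def,
        Polynomial.derivative_map, Polynomial.eval₂_map]
      congr 1
      ext c
      exact hi c
    rwa [h2] at h1
  · obtain ⟨s, hs⟩ := hs
    refine ⟨s.map i, ?_⟩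
    have h1 := congrArg (Polynomial.map i) hs
    rw [Polynomial.map_map, Polynomial.map_multiset_prod, Multiset.map_map] at h1
    rw [Polynomial.map_map, Multiset.map_map]
    have h2 : (AdjoinRoot.of (g.map (algebraMap C R))).comp (algebraMap C R) =
        i.comp (AdjoinRoot.of g) := by
      ext c
      exact (hi c).symm
    rw [h2, h1]
    congr 1
    apply Multiset.map_congr rfl
    intro a _
    simp
  · let _ : Algebra (AdjoinRoot g) (AdjoinRoot (g.map (algebraMap C R))) := i.toAlgebra
    have h1 := hx.adjoinRoot g i hi hi'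
    obtain ⟨e1, -⟩ := (rep_std _).equiv h1
    obtain ⟨e2⟩ := std_equiv e (fun k => MvPolynomial.map (AdjoinRoot.of g) (f k))
    have h3 : (fun k => MvPolynomial.map (e : AdjoinRoot g →+* B)
        (MvPolynomial.map (AdjoinRoot.of g) (f k))) =
        fun k => MvPolynomial.map ((e : AdjoinRoot g →+* B).comp (AdjoinRoot.of g)) (f k) := by
      funext k
      rw [MvPolynomial.map_map]
    rw [h3] at e2
    have hB : Algebra.FiniteType ℤ B := by
      have h4 : Algebra.FiniteType ℤ (AdjoinRoot g) :=
        Algebra.FiniteType.trans (S := C) hC inferInstance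
      exact finiteType_of_surj h4 (e : AdjoinRoot g →+* B) e.surjective
    exact hQ.iso _ _ (finiteType_std hB _) (e2.symm.trans e1.toRingEquiv) h

end Pool.Agent.Helper45.LF
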