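import Pool.Agent.Helper45.LF.Gal

/-!
# Good subrings of an algebraic closure
-/

set_option autoImplicit false

namespace Pool.Agent.Helper45.LF

open Filter

variable {Q : ∀ (R : Type) [CommRing R], Prop}

/-- the subring `B` of `K` is a monogenic finite etale Galois extension of a ring `C` with the
property `Cp`, and has the property `Q` -/
def GoodSub (Q : ∀ (R : Type) [CommRing R], Prop) {K : Type} [Field K]
    (Cp : ∀ (C : Type) [CommRing C], Prop) (B : Subring K) : Prop :=
  ∃ (C : Type) (_ : CommRing C) (g : Polynomial C) (_ : AdjoinRoot g ≃+* B), Cp C ∧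
    Algebra.FiniteType ℤ C ∧ g.Monic ∧ 0 < g.natDegree ∧
    IsUnit (Polynomial.aeval (AdjoinRoot.root g) (Polynomial.derivative g)) ∧
    (∃ s : Multiset (AdjoinRoot g), g.map (AdjoinRoot.of g) =
      (s.map fun a => Polynomial.X - Polynomial.C a).prod) ∧ Q B

theorem Rep.baseChange {C D R σ ρ : Type} [CommRing C] [CommRing D] [Algebra C D] [CommRing R]
    [Algebra C R] {x : σ → R} {f : ρ → MvPolynomial σ C} (hx : Rep x f) :
    Rep (C := D) (R := TensorProduct C D R) (fun j => (1 : D) ⊗ₜ[C] x j)
      (fun k => MvPolynomial.map (algebraMap C D) (f k)) where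
  zero k := by
    have h1 : MvPolynomial.aeval (fun j => (1 : D) ⊗ₜ[C] x j)
        (MvPolynomial.map (algebraMap C D) (f k)) =
        (Algebra.TensorProduct.includeRight : R →ₐ[C] TensorProduct C D R)
          (MvPolynomial.aeval x (f k)) := by
      rw [MvPolynomial.aeval_def, MvPolynomial.eval₂_map, MvPolynomial.aeval_def]
      rw [← AlgHom.coe_toRingHom, MvPolynomial.eval₂_comp_left]
      congr 1
      ext c
      simp only [RingHom.comp_apply]
      have := (Algebra.TensorProduct.includeRight : R →ₐ[C] TensorProduct C D R).commutes c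
      rw [AlgHom.coe_toRingHom, this]
      exact (IsScalarTower.algebraMap_apply C D (TensorProduct C D R) c).symm
    rw [h1, hx.zero, map_zero]
  lift E _ _ y hy := by
    let _ : Algebra C E := ((algebraMap D E).comp (algebraMap C D)).toAlgebra
    have : IsScalarTower C D E := IsScalarTower.of_algebraMap_eq fun _ => rfl
    obtain ⟨φ, hφ⟩ := hx.lift E y (fun k => by
      have := hy k
      rw [MvPolynomial.aeval_def, MvPolynomial.eval₂_map] at this
      rw [MvPolynomial.aeval_def]
      exact this)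
    refine ⟨Algebra.TensorProduct.lift (Algebra.ofId D E) φ (fun _ _ => Commute.all _ _), ?_⟩
    intro j
    simp [hφ]
  ext E _ _ φ ψ h := by
    let _ : Algebra C E := ((algebraMap D E).comp (algebraMap C D)).toAlgebra
    have : IsScalarTower C D E := IsScalarTower.of_algebraMap_eq fun _ => rfl
    apply Algebra.TensorProduct.ext
    · exact Subsingleton.elim _ _
    · apply hx.ext
      intro j
      exact h j

/-- from the geometric fibre to an etale Galois descent -/
theorem exists_descent (hQ : MorinRings Q) {K : Type} [Field K]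
    {Cp : ∀ (C : Type) [CommRing C], Prop}
    (hT : ∀ T : Finset K, ∃ B : Subring K, GoodSub Q Cp B ∧ ∀ x ∈ T, x ∈ B)
    {A : Type} [CommRing A] (hA : Algebra.FiniteType ℤ A) (h : Linear K (TensorProduct ℤ K A)) :
    ∃ (C : Type) (_ : CommRing C), Cp C ∧ Q (TensorProduct ℤ C A) := by
  classical
  let S : Finset K → Set (Subring K) := fun T => {B | GoodSub Q Cp B ∧ ∀ x ∈ T, x ∈ B}
  let l : Filter (Subring K) := ⨅ T, 𝓟 (S T)
  have hdir : Directed (· ≥ ·) fun T => 𝓟 (S T) := by
    intro T T'
    refine ⟨T ∪ T', ?_, ?_⟩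
    · apply principal_mono.2
      rintro B ⟨h1, h2⟩
      exact ⟨h1, fun x hx => h2 x (Finset.mem_union_left _ hx)⟩
    · apply principal_mono.2
      rintro B ⟨h1, h2⟩
      exact ⟨h1, fun x hx => h2 x (Finset.mem_union_right _ hx)⟩
  have hne : l.NeBot := by
    apply iInf_neBot_of_directed' hdir
    intro T
    rw [principal_neBot_iff]
    exact hT T
  have hl : ∀ x : K, ∀ᶠ B in l, x ∈ B := fun x => by
    have h1 : S {x} ∈ l := mem_iInf_of_mem {x} (mem_principal_self _)
    filter_upwards [h1] with B hB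
    exact hB.2 x (Finset.mem_singleton_self x)
  have hgood : ∀ᶠ B in l, GoodSub Q Cp B := by
    have h1 : S ∅ ∈ l := mem_iInf_of_mem ∅ (mem_principal_self _)
    filter_upwards [h1] with B hB
    exact hB.1
  have hft : ∀ᶠ B in l, FT B := by
    filter_upwards [hgood] with B hB
    obtain ⟨C, _, g, e, -, h1, -⟩ := hB
    have h4 : Algebra.FiniteType ℤ (AdjoinRoot g) :=
      Algebra.FiniteType.trans (S := C) h1 inferInstance
    exact finiteType_of_surj h4 (e : AdjoinRoot g →+* B) e.surjective
  have hQB : ∀ᶠ B : Subring K in l, Q B := by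
    filter_upwards [hgood] with B hB
    obtain ⟨C, _, g, e, -, -, -, -, -, -, h1⟩ := hB
    exact h1
  -- a presentation of `A`
  obtain ⟨n, m, x, f, hx⟩ : ∃ (n m : ℕ) (x : Fin n → A) (f : Fin m → MvPolynomial (Fin n) ℤ),
      Rep x f := by
    obtain ⟨n, φ, hφ⟩ := Algebra.FiniteType.iff_quotient_mvPolynomial''.1 hA
    obtain ⟨S, hS⟩ := (isNoetherianRing_iff_ideal_fg _).1 inferInstance (RingHom.ker φ)
    obtain ⟨m, f, hf⟩ : ∃ (m : ℕ) (f : Fin m → MvPolynomial (Fin n) ℤ),
        Set.range f = (S : Set (MvPolynomial (Fin n) ℤ)) := by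
      refine ⟨S.card, fun i => (S.equivFin.symm i : MvPolynomial (Fin n) ℤ), ?_⟩
      ext p
      constructor
      · rintro ⟨i, rfl⟩
        exact (S.equivFin.symm i).2
      · intro hp
        exact ⟨S.equivFin ⟨p, hp⟩, by simp⟩
    have hk : Ideal.span (Set.range f) = RingHom.ker φ := by rw [hf, hS]
    let e : Std f ≃ₐ[ℤ] A :=
      (Ideal.quotientEquivAlgOfEq ℤ hk).trans (Ideal.quotientKerAlgEquivOfSurjective hφ)
    exact ⟨n, m, _, f, (rep_std f).transport e⟩
  have hs := Linear.spread hQ.toRingClosed hl hft hQB h _ _ _ _ (hx.baseChange (D := K))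
  obtain ⟨B, hB, hBQ⟩ := (hs.and hgood).exists
  obtain ⟨C, _, g, e, h1, h2, h3, h4, h5, h6, -⟩ := hBQ
  refine ⟨C, inferInstance, h1, ?_⟩
  refine descent hQ h2 h3 h4 h5 h6 e (hx.baseChange (D := C)) ?_
  have h7 := hB (fun k => MvPolynomial.map (algebraMap ℤ B) (f k)) (fun k => by
    rw [MvPolynomial.map_map]
    congr 1)
  have heq : (fun k => MvPolynomial.map ((e : AdjoinRoot g →+* B).comp (AdjoinRoot.of g))
      (MvPolynomial.map (algebraMap ℤ C) (f k))) =
      fun k => MvPolynomial.map (algebraMap ℤ B) (f k) := by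
    funext k
    rw [MvPolynomial.map_map]
    congr 2
    exact RingHom.ext_int _ _
  rw [heq]
  exact h7

/-- a criterion -/
theorem goodSub_of_minpoly {C K : Type} [CommRing C] [IsDomain C] [IsIntegrallyClosed C] [Field K]
    [IsAlgClosed K] [Algebra C K] [FaithfulSMul C K]
    {Cp : ∀ (C : Type) [CommRing C], Prop} (hC : Cp C) (hft : Algebra.FiniteType ℤ C) {θ : K}
    (hθ : IsIntegral C θ)
    (hroots : ∀ a : K, Polynomial.aeval a (minpoly C θ) = 0 → a ∈ Algebra.adjoin C {θ})
    (hd : Polynomial.aeval θ (Polynomial.derivative (minpoly C θ)) ≠ 0)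
    (hd' : (Polynomial.aeval θ (Polynomial.derivative (minpoly C θ)))⁻¹ ∈ Algebra.adjoin C {θ})
    (hQ : Q (Algebra.adjoin C {θ})) :
    GoodSub Q Cp (Algebra.adjoin C {θ}).toSubring := by
  let e : AdjoinRoot (minpoly C θ) ≃ₐ[C] Algebra.adjoin C {θ} := minpoly.equivAdjoin hθ
  let ι : AdjoinRoot (minpoly C θ) →ₐ[C] K := (Algebra.adjoin C {θ}).val.comp e.toAlgHom
  have hι : Function.Injective ι := Subtype.val_injective.comp e.injective
  have hroot : ι (AdjoinRoot.root _) = θ := by
    change ((e (AdjoinRoot.root _) : Algebra.adjoin C {θ}) : K) = θ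
    have : e (AdjoinRoot.root _) = ⟨θ, Algebra.self_mem_adjoin_singleton C θ⟩ := by
      simp [e]
    rw [this]
  refine ⟨C, inferInstance, minpoly C θ, e.toRingEquiv, hC, hft, minpoly.monic hθ,
    minpoly.natDegree_pos hθ, ?_, ?_, hQ⟩
  · have h1 : ι (Polynomial.aeval (AdjoinRoot.root (minpoly C θ))
        (Polynomial.derivative (minpoly C θ))) =
        Polynomial.aeval θ (Polynomial.derivative (minpoly C θ)) := by
      rw [← Polynomial.aeval_algHom_apply, hroot]
    refine IsUnit.of_mul_eq_one (e.symm ⟨_, hd'⟩) ?_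
    apply hι
    rw [map_mul, h1, map_one]
    have h2 : ι (e.symm ⟨_, hd'⟩) =
        (Polynomial.aeval θ (Polynomial.derivative (minpoly C θ)))⁻¹ := by
      change ((e (e.symm ⟨_, hd'⟩) : Algebra.adjoin C {θ}) : K) = _
      rw [e.apply_symm_apply]
    rw [h2, mul_inv_cancel₀ hd]
  · have hsp := (IsAlgClosed.splits ((minpoly C θ).map (algebraMap C K))).eq_prod_roots_of_monic
      ((minpoly.monic hθ).map _)
    have hmem : ∀ a ∈ ((minpoly C θ).map (algebraMap C K)).roots,
        a ∈ Algebra.adjoin C {θ} := by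
      intro a ha
      apply hroots
      have := (Polynomial.mem_roots'.1 ha).2
      rwa [Polynomial.IsRoot, Polynomial.eval_map_algebraMap] at this
    refine ⟨((minpoly C θ).map (algebraMap C K)).roots.attach.map
      (fun a => e.symm ⟨a.1, hmem a.1 a.2⟩), ?_⟩
    apply Polynomial.map_injective (ι : AdjoinRoot (minpoly C θ) →+* K) hι
    rw [Polynomial.map_map, Polynomial.map_multiset_prod, Multiset.map_map, Multiset.map_map]
    have h3 : (ι : AdjoinRoot (minpoly C θ) →+* K).comp (AdjoinRoot.of (minpoly C θ)) =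
        algebraMap C K := by
      ext c
      exact ι.commutes c
    rw [h3]
    conv_lhs => rw [hsp]
    congr 1
    conv_lhs => rw [← Multiset.attach_map_val ((minpoly C θ).map (algebraMap C K)).roots]
    rw [Multiset.map_map]
    apply Multiset.map_congr rfl
    intro a _
    simp only [Function.comp_apply, Polynomial.map_sub, Polynomial.map_X, Polynomial.map_C]
    congr 2
    change a.1 = ((e (e.symm ⟨a.1, hmem a.1 a.2⟩) : Algebra.adjoin C {θ}) : K)
    rw [e.apply_symm_apply]

end Pool.Agent.Helper45.LF
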