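import Pool.Agent.Helper45.LF.NF2

/-!
# Rings with linear geometric fibres
-/

set_option autoImplicit false

namespace Pool.Agent.Helper45.LF

variable {Q : ∀ (R : Type) [CommRing R], Prop}

theorem RingClosed.prod (hQ : RingClosed Q) (R S : Type) [CommRing R] [CommRing S]
    (hR : Algebra.FiniteType ℤ R) (hS : Algebra.FiniteType ℤ S) (h1 : Q R) (h2 : Q S) :
    Q (R × S) := by
  have hft : Algebra.FiniteType ℤ (R × S) := inferInstance
  have e1 : Nonempty (S ≃+* (R × S) ⧸ Ideal.span {((1, 0) : R × S)}) := by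
    have hs : Function.Surjective (RingHom.snd R S) := fun s => ⟨(0, s), rfl⟩
    have hk : RingHom.ker (RingHom.snd R S) = Ideal.span {((1, 0) : R × S)} := by
      apply le_antisymm
      · rintro ⟨a, b⟩ hab
        have hb : b = 0 := hab
        rw [Ideal.mem_span_singleton]
        exact ⟨(a, 0), by simp [hb]⟩
      · rw [Ideal.span_singleton_le_iff_mem]
        rfl
    exact ⟨((Ideal.quotEquivOfEq hk.symm).trans
      (RingHom.quotientKerEquivOfSurjective hs)).symm⟩
  have e2 : Nonempty (R ≃+* Localization.Away ((1, 0) : R × S)) := by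
    let _ : Algebra (R × S) R := (RingHom.fst R S).toAlgebra
    have hk : RingHom.ker (algebraMap (R × S) R) = Ideal.span {1 - ((1, 0) : R × S)} := by
      apply le_antisymm
      · rintro ⟨a, b⟩ hab
        have ha : a = 0 := hab
        rw [Ideal.mem_span_singleton]
        exact ⟨(0, b), by simp [ha, Prod.ext_iff]⟩
      · rw [Ideal.span_singleton_le_iff_mem]
        change (1 : R) - 1 = 0
        exact sub_self _
    have hl : IsLocalization.Away ((1, 0) : R × S) R :=
      IsLocalization.away_of_isIdempotentElem (by simp [IsIdempotentElem]) hk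
        (fun r => ⟨(r, 0), rfl⟩)
    exact ⟨(IsLocalization.algEquiv (Submonoid.powers ((1, 0) : R × S)) R
      (Localization.Away ((1, 0) : R × S))).toRingEquiv⟩
  obtain ⟨e1⟩ := e1
  obtain ⟨e2⟩ := e2
  exact hQ.glue (R × S) (1, 0) hft (hQ.iso _ _ hS e1 h2) (hQ.iso _ _ hR e2 h1)

/-- nilpotent elements -/
theorem RingClosed.nilp (hQ : RingClosed Q) (R : Type) [CommRing R] (f : R)
    (hft : Algebra.FiniteType ℤ R) (hf : IsNilpotent f) (h : Q (R ⧸ Ideal.span {f})) : Q R := by
  refine hQ.glue R f hft h (hQ.zero _ ?_)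
  obtain ⟨n, hn⟩ := hf
  exact IsLocalization.subsingleton (M := Submonoid.powers f) ⟨n, hn⟩

theorem RingClosed.quot_prime_pow (hQ : RingClosed Q) (A : Type) [CommRing A]
    (hft : Algebra.FiniteType ℤ A) (p n : ℕ) (hn : 0 < n) (h : Q (A ⧸ Ideal.span {(p : A)})) :
    Q (A ⧸ Ideal.span {((p ^ n : ℕ) : A)}) := by
  set I : Ideal A := Ideal.span {((p ^ n : ℕ) : A)} with hI
  have hle : I ≤ Ideal.span {(p : A)} := by
    rw [hI, Ideal.span_singleton_le_span_singleton]
    push_cast
    exact dvd_pow_self _ hn.ne'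
  have e := DoubleQuot.quotQuotEquivQuotOfLE hle
  have hmap : Ideal.map (Ideal.Quotient.mk I) (Ideal.span {(p : A)}) =
      Ideal.span {((p : ℕ) : A ⧸ I)} := by
    rw [Ideal.map_span, Set.image_singleton, map_natCast]
  rw [hmap] at e
  refine hQ.nilp (A ⧸ I) ((p : ℕ) : A ⧸ I) (finiteType_quot hft I) ⟨n, ?_⟩
    (hQ.iso _ _ (finiteType_quot hft _) e.symm h)
  have h1 : ((p : ℕ) : A ⧸ I) ^ n = Ideal.Quotient.mk I ((p ^ n : ℕ) : A) := by
    push_cast
    rfl
  rw [h1, Ideal.Quotient.eq_zero_iff_mem, hI]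
  exact Ideal.subset_span rfl

theorem RingClosed.quot_nat (hQ : RingClosed Q) (A : Type) [CommRing A]
    (hft : Algebra.FiniteType ℤ A) (n : ℕ) (hn : 0 < n)
    (h : ∀ p : ℕ, p.Prime → Q (A ⧸ Ideal.span {(p : A)})) :
    Q (A ⧸ Ideal.span {(n : A)}) := by
  induction n using Nat.recOnPosPrimePosCoprime with
  | zero => exact absurd hn (lt_irrefl 0)
  | one =>
    apply hQ.zero
    rw [Ideal.Quotient.subsingleton_iff, Nat.cast_one, Ideal.span_singleton_one]
  | prime_pow p n hp hn' => exact hQ.quot_prime_pow A hft p n hn' (h p hp)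
  | coprime a b ha hb hab iha ihb =>
    have h1 := iha (zero_lt_one.trans ha)
    have h2 := ihb (zero_lt_one.trans hb)
    have hcop : IsCoprime (Ideal.span {(a : A)}) (Ideal.span {(b : A)}) := by
      rw [Ideal.isCoprime_span_singleton_iff]
      exact Nat.Coprime.cast hab
    have e := Ideal.quotientMulEquivQuotientProd _ _ hcop
    rw [Ideal.span_singleton_mul_span_singleton, ← Nat.cast_mul] at e
    have hf1 := finiteType_quot hft (Ideal.span {(a : A)})
    have hf2 := finiteType_quot hft (Ideal.span {(b : A)})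
    have hf3 : Algebra.FiniteType ℤ ((A ⧸ Ideal.span {(a : A)}) × (A ⧸ Ideal.span {(b : A)})) :=
      inferInstance
    exact hQ.iso _ _ hf3 e.symm (hQ.prod _ _ hf1 hf2 h1 h2)

theorem tens_equiv {Z C A D : Type} [CommRing Z] [CommRing C] [CommRing A] [CommRing D]
    [Algebra Z C] [Algebra Z A] [Algebra Z D]
    (hC : ∀ (E : Type) [CommRing E] [Algebra Z E] (x y : C →ₐ[Z] E), x = y)
    (u : C →ₐ[Z] D) (v : A →ₐ[Z] D)
    (hw : ∀ (E : Type) [CommRing E] [Algebra Z E] (_ : C →ₐ[Z] E) (y : A →ₐ[Z] E),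
      ∃ w : D →ₐ[Z] E, w.comp v = y)
    (hD : ∀ (E : Type) [CommRing E] [Algebra Z E] (x y : D →ₐ[Z] E),
      x.comp v = y.comp v → x = y) : Nonempty (TensorProduct Z C A ≃+* D) := by
  obtain ⟨w, hw⟩ := hw (TensorProduct Z C A) Algebra.TensorProduct.includeLeft
    Algebra.TensorProduct.includeRight
  let φ : TensorProduct Z C A →ₐ[Z] D := Algebra.TensorProduct.productMap u v
  have hφ : φ.comp Algebra.TensorProduct.includeRight = v :=
    Algebra.TensorProduct.productMap_right u v
  have h1 : φ.comp w = AlgHom.id Z D := by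
    apply hD
    rw [AlgHom.comp_assoc, hw, hφ, AlgHom.id_comp]
  have h2 : w.comp φ = AlgHom.id Z _ := by
    apply Algebra.TensorProduct.ext
    · exact hC _ _ _
    · ext a
      have h3 : (w.comp φ) ((Algebra.TensorProduct.includeRight : A →ₐ[Z] TensorProduct Z C A) a) =
          (Algebra.TensorProduct.includeRight : A →ₐ[Z] TensorProduct Z C A) a := by
        change w ((φ.comp Algebra.TensorProduct.includeRight) a) = _
        rw [hφ]
        exact congrArg (fun χ : A →ₐ[Z] TensorProduct Z C A => χ a) hw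
      exact h3
  exact ⟨(AlgEquiv.ofAlgHom φ w h1 h2).toRingEquiv⟩

theorem tens_equiv_int {C A D : Type} [CommRing C] [CommRing A] [CommRing D]
    (hC : ∀ (E : Type) [CommRing E] (x y : C →+* E), x = y)
    (u : C →+* D) (v : A →+* D)
    (hw : ∀ (E : Type) [CommRing E] (_ : C →+* E) (y : A →+* E), ∃ w : D →+* E, w.comp v = y)
    (hD : ∀ (E : Type) [CommRing E] (x y : D →+* E), x.comp v = y.comp v → x = y) :
    Nonempty (TensorProduct ℤ C A ≃+* D) := by
  refine tens_equiv (Z := ℤ) ?_ u.toIntAlgHom v.toIntAlgHom ?_ ?_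
  · intro E _ _ x y
    have h1 := hC E (x : C →+* E) (y : C →+* E)
    ext c
    exact congrArg (fun χ : C →+* E => χ c) h1
  · intro E _ inst x y
    obtain rfl : inst = Ring.toIntAlgebra E := Subsingleton.elim _ _
    obtain ⟨w, hw⟩ := hw E (x : C →+* E) (y : A →+* E)
    refine ⟨w.toIntAlgHom, ?_⟩
    ext a
    exact congrArg (fun χ : A →+* E => χ a) hw
  · intro E _ _ x y hxy
    have h1 := hD E (x : D →+* E) (y : D →+* E) (by
      ext a
      exact congrArg (fun χ : A →ₐ[ℤ] E => χ a) hxy)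
    ext a
    exact congrArg (fun χ : D →+* E => χ a) h1

theorem tens_quot (A : Type) [CommRing A] (p : ℕ) (C : Type) [CommRing C] (e : C ≃+* ZMod p) :
    Nonempty (TensorProduct ℤ C A ≃+* A ⧸ Ideal.span {(p : A)}) := by
  let I : Ideal A := Ideal.span {(p : A)}
  have hp0 : ((p : ℕ) : A ⧸ I) = 0 := by
    have h1 : ((p : ℕ) : A ⧸ I) = Ideal.Quotient.mk I ((p : ℕ) : A) := (map_natCast _ _).symm
    rw [h1, Ideal.Quotient.eq_zero_iff_mem]
    exact Ideal.subset_span rfl
  have hchar : ringChar (A ⧸ I) ∣ p := (ringChar.spec _ _).1 hp0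
  let u : ZMod p →+* A ⧸ I := ZMod.castHom hchar (A ⧸ I)
  refine tens_equiv_int ?_ (u.comp (e : C →+* ZMod p)) (Ideal.Quotient.mk I) ?_ ?_
  · intro E _ x y
    have h1 : x.comp (e.symm : ZMod p →+* C) = y.comp (e.symm : ZMod p →+* C) :=
      Subsingleton.elim _ _
    ext c
    have h2 := congrArg (fun χ : ZMod p →+* E => χ (e c)) h1
    simpa using h2
  · intro E _ x y
    have hp1 : ((p : ℕ) : E) = 0 := by
      have h1 : ((p : ℕ) : C) = 0 := by
        apply e.injective
        simp
      rw [← map_natCast x, h1, map_zero]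
    refine ⟨Ideal.Quotient.lift I y ?_, ?_⟩
    · intro a ha
      obtain ⟨b, rfl⟩ := Ideal.mem_span_singleton.1 ha
      rw [map_mul, map_natCast, hp1, zero_mul]
    · ext a
      rfl
  · intro E _ x y hxy
    exact Ideal.Quotient.ringHom_ext hxy

theorem tens_away (A : Type) [CommRing A] (N : ℕ) (C : Type) [CommRing C]
    (e : C ≃+* Localization.Away (N : ℤ)) :
    Nonempty (TensorProduct ℤ C A ≃+* Localization.Away (N : A)) := by
  have hu : IsUnit ((N : ℕ) : Localization.Away (N : A)) := by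
    have h1 := IsLocalization.Away.algebraMap_isUnit (S := Localization.Away (N : A)) (N : A)
    rwa [map_natCast] at h1
  let u : Localization.Away (N : ℤ) →+* Localization.Away (N : A) :=
    IsLocalization.Away.lift (N : ℤ) (g := Int.castRingHom _) (by simpa using hu)
  refine tens_equiv_int ?_ (u.comp (e : C →+* Localization.Away (N : ℤ)))
    (algebraMap A (Localization.Away (N : A))) ?_ ?_
  · intro E _ x y
    have h1 : x.comp (e.symm : Localization.Away (N : ℤ) →+* C) =
        y.comp (e.symm : Localization.Away (N : ℤ) →+* C) := by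
      apply IsLocalization.ringHom_ext (Submonoid.powers (N : ℤ))
      exact RingHom.ext_int _ _
    ext c
    have h2 := congrArg (fun χ : Localization.Away (N : ℤ) →+* E => χ (e c)) h1
    simpa using h2
  · intro E _ x y
    have hE : IsUnit ((N : ℕ) : E) := by
      have h1 := IsLocalization.Away.algebraMap_isUnit (S := Localization.Away (N : ℤ)) (N : ℤ)
      have h2 := (h1.map (e.symm : Localization.Away (N : ℤ) →+* C)).map x
      simpa using h2
    refine ⟨IsLocalization.Away.lift (N : A) (g := y) (by simpa using hE), ?_⟩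
    ext a
    simp
  · intro E _ x y hxy
    exact IsLocalization.ringHom_ext (Submonoid.powers (N : A)) hxy

/-- **Rings with linear geometric fibres.** -/
theorem ring_main (hQ : MorinRings Q) {A : Type} [CommRing A] (hA : Algebra.FiniteType ℤ A)
    (h0 : Linear (AlgebraicClosure ℚ) (TensorProduct ℤ (AlgebraicClosure ℚ) A))
    (hp : ∀ p : ℕ, [Fact p.Prime] → Q (A ⧸ Ideal.span {(p : A)}) ∨
      Linear (AlgebraicClosure (ZMod p)) (TensorProduct ℤ (AlgebraicClosure (ZMod p)) A)) :
    Q A := by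
  have hp' : ∀ p : ℕ, p.Prime → Q (A ⧸ Ideal.span {(p : A)}) := by
    intro p hpp
    have hfact : Fact p.Prime := ⟨hpp⟩
    rcases hp p with h | h
    · exact h
    · obtain ⟨C, _, ⟨e⟩, hC⟩ := exists_descent hQ (fun T => exists_good_finite hQ p T) hA h
      obtain ⟨e'⟩ := tens_quot A p C e
      have hft : Algebra.FiniteType ℤ (TensorProduct ℤ C A) :=
        finiteType_of_surj (finiteType_quot hA (Ideal.span {(p : A)}))
          (e'.symm : A ⧸ Ideal.span {(p : A)} →+* TensorProduct ℤ C A) e'.symm.surjective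
      exact hQ.iso _ _ hft e' hC
  have hT : ∀ T : Finset (AlgebraicClosure ℚ), ∃ B, GoodSub Q IsZAway B ∧ ∀ x ∈ T, x ∈ B := by
    let _ : Algebra ℚ (AlgebraicClosure ℚ) := AlgebraicClosure.instAlgebra ℚ
    exact fun T => exists_good_number ℚ hQ T
  obtain ⟨C, _, ⟨N, hN, ⟨e⟩⟩, hC⟩ := exists_descent hQ hT hA h0
  obtain ⟨e'⟩ := tens_away A N C e
  have hft : Algebra.FiniteType ℤ (TensorProduct ℤ C A) :=
    finiteType_of_surj (finiteType_away hA (N : A))
      (e'.symm : Localization.Away (N : A) →+* TensorProduct ℤ C A) e'.symm.surjective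
  exact hQ.glue A (N : A) hA (hQ.quot_nat A hA N hN hp') (hQ.iso _ _ hft e' hC)

end Pool.Agent.Helper45.LF
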